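import Mathlib

namespace Pool.Agent.Results.MP_593b6a_co.AllK

open Multiset

/-- `B` arises from `A` by removing one copy of a vertex `u` and adding one copy of a
neighbour `v` of `u`. -/
def Move {V : Type} (G : SimpleGraph V) (A B : Multiset V) : Prop :=
  ∃ u v C, G.Adj u v ∧ A = u ::ₘ C ∧ B = v ::ₘ C

lemma Move.symm {V : Type} {G : SimpleGraph V} {A B : Multiset V} (h : Move G A B) :
    Move G B A := by
  obtain ⟨u, v, C, h, h1, h2⟩ := h
  exact ⟨v, u, C, h.symm, h2, h1⟩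

/-- The `k`-multiset graph `M_k(G)`: its vertices are the multisets of `k` vertices of `G`. -/
def multisetGraph {V : Type} (G : SimpleGraph V) (k : ℕ) :
    SimpleGraph {A : Multiset V // A.card = k} where
  Adj A B := Move G A.1 B.1
  symm := ⟨fun _ _ h => h.symm⟩
  loopless := ⟨by
    rintro A ⟨u, v, C, h, h1, h2⟩
    exact h.ne ((cons_inj_left C).1 (h1.symm.trans h2))⟩

/-- A Hamiltonian cycle `f 0, f 1, …, f (n-1), f 0`: at least three vertices, every vertex
appears exactly once, and cyclically consecutive vertices are adjacent. -/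
def Ham {V : Type} (G : SimpleGraph V) : Prop :=
  ∃ (n : ℕ) (f : ℕ → V), 3 ≤ n ∧ (∀ i < n, ∀ j < n, f i = f j → i = j) ∧
    (∀ v, ∃ i < n, f i = v) ∧ (∀ i, i + 1 < n → G.Adj (f i) (f (i + 1))) ∧
    G.Adj (f (n - 1)) (f 0)

def HP {α : Type} (R : α → α → Prop) (S : Set α) (a b : α) (m : ℕ) : Prop :=
  ∃ l : List α, l.Nodup ∧ (∀ x, x ∈ l ↔ x ∈ S) ∧ l.IsChain R ∧ l.head? = some a ∧
    l.getLast? = some b ∧ l.length = m

lemma HP.single {α : Type} (R : α → α → Prop) (S : Set α) (a : α) (h : ∀ x, x ∈ S ↔ x = a) :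
    HP R S a a 1 := ⟨[a], by simp, by simp [h], by simp, rfl, rfl, rfl⟩

lemma HP.append {α : Type} {R : α → α → Prop} {S T U : Set α} {a b c d : α} {m n : ℕ}
    (h1 : HP R S a b m) (h2 : HP R T c d n) (hd : ∀ x ∈ S, x ∉ T) (hr : R b c)
    (hU : ∀ x, x ∈ U ↔ x ∈ S ∨ x ∈ T) : HP R U a d (m + n) := by
  obtain ⟨l, p1, p2, p3, p4, p5, p6⟩ := h1
  obtain ⟨k, q1, q2, q3, q4, q5, q6⟩ := h2
  refine ⟨l ++ k, ?_, ?_, ?_, ?_, ?_, ?_⟩
  · refine List.Nodup.append p1 q1 fun x hx hy => hd x ((p2 x).1 hx) ((q2 x).1 hy)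
  · intro x; rw [List.mem_append, p2, q2, hU]
  · refine p3.append q3 fun x hx y hy => ?_
    rw [p5] at hx; rw [q4] at hy
    obtain rfl := Option.some.inj hx
    obtain rfl := Option.some.inj hy
    exact hr
  · rw [List.head?_append, p4]; rfl
  · rw [List.getLast?_append, q5]; rfl
  · rw [List.length_append, p6, q6]

lemma HP.symm {α : Type} {R : α → α → Prop} {S : Set α} {a b : α} {m : ℕ}
    (hs : ∀ x y, R x y → R y x) (h : HP R S a b m) : HP R S b a m := by
  obtain ⟨l, p1, p2, p3, p4, p5, p6⟩ := h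
  refine ⟨l.reverse, List.nodup_reverse.2 p1, fun x => by rw [List.mem_reverse, p2], ?_,
    by rw [List.head?_reverse, p5], by rw [List.getLast?_reverse, p4], by simpa using p6⟩
  rw [List.isChain_reverse]
  exact p3.imp fun x y h => hs x y h

lemma HP.map {α : Type} {R : α → α → Prop} {S : Set α} {a b : α} {m : ℕ} (f : α → α)
    (hf : Function.Injective f) (hr : ∀ x y, R x y → R (f x) (f y)) (h : HP R S a b m) :
    HP R (f '' S) (f a) (f b) m := by
  obtain ⟨l, p1, p2, p3, p4, p5, p6⟩ := h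
  refine ⟨l.map f, p1.map hf, fun x => by simp [p2], List.isChain_map_of_isChain f hr p3,
    by simp [p4], by simp [p5], by simpa using p6⟩

lemma lift {α : Type} {R : α → α → Prop} (hs : ∀ x y, R x y → R y x) (S : Set α)
    (L : α → Set α) (e : Bool → α → α)
    (hL : ∀ B ∈ S, ∃ m, HP R (L B) (e true B) (e false B) m)
    (hd : ∀ B ∈ S, ∀ B' ∈ S, ∀ x ∈ L B, x ∈ L B' → B = B')
    (hR : ∀ B B' t, R B B' → R (e t B) (e t B')) :
    ∀ (l : List α) (B Z : α), (B :: l).Nodup → (∀ x ∈ B :: l, x ∈ S) → (B :: l).IsChain R →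
      (B :: l).getLast? = some Z → ∀ t, ∃ m,
        HP R {x | ∃ C ∈ B :: l, x ∈ L C} (e t B) (e (if Even l.length then !t else t) Z) m := by
  have hL' : ∀ B ∈ S, ∀ t, ∃ m, HP R (L B) (e t B) (e (!t) B) m := by
    intro B hB t
    obtain ⟨m, h⟩ := hL B hB
    cases t
    · exact ⟨m, h.symm hs⟩
    · exact ⟨m, h⟩
  intro l
  induction l with
  | nil =>
    intro B Z _ h2 _ h4 t
    obtain rfl : B = Z := by simpa using h4
    obtain ⟨m, h⟩ := hL' B (h2 B (by simp)) t
    exact ⟨m, by simpa using h⟩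
  | cons C l ih =>
    intro B Z h1 h2 h3 h4 t
    obtain ⟨m, h⟩ := hL' B (h2 B (by simp)) t
    rw [List.isChain_cons_cons] at h3
    rw [List.nodup_cons] at h1
    obtain ⟨n, g⟩ := ih C Z h1.2 (fun x hx => h2 x (List.mem_cons_of_mem _ hx)) h3.2
      (by simpa [List.getLast?_cons_cons] using h4) (!t)
    refine ⟨m + n, ?_⟩
    have e1 : (if Even (C :: l).length then !t else t) =
        (if Even l.length then !(!t) else !t) := by
      simp only [List.length_cons, Nat.even_add_one]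
      by_cases h : Even l.length <;> simp [h]
    rw [e1]
    refine h.append g ?_ (hR _ _ _ h3.1) ?_
    · rintro x hx ⟨D, hD, hx'⟩
      have := hd B (h2 B (by simp)) D (h2 D (List.mem_cons_of_mem _ hD)) x hx hx'
      exact h1.1 (this ▸ hD)
    · intro x; simp

def MS {V : Type} (U : Finset V) (r : ℕ) : Set (Multiset V) := {A | A.card = r ∧ ∀ v ∈ A, v ∈ U}

lemma Move.add {V : Type} {G : SimpleGraph V} (D : Multiset V) (A B : Multiset V)
    (h : Move G A B) : Move G (D + A) (D + B) := by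
  obtain ⟨u, v, C, h, rfl, rfl⟩ := h
  exact ⟨u, v, D + C, h, by simp, by simp⟩

lemma Move.cons {V : Type} {G : SimpleGraph V} (w : V) (A B : Multiset V)
    (h : Move G A B) : Move G (w ::ₘ A) (w ::ₘ B) := by
  simpa using h.add {w}

lemma step {V : Type} [DecidableEq V] {G : SimpleGraph V} (U : Finset V) (w : V) (hw : w ∈ U)
    (r m n : ℕ) (a c d : Multiset V) (y : V) (hy : G.Adj y w)
    (h1 : HP (Move G) (MS (U.erase w) (r + 1)) a (y ::ₘ c) m) (h2 : HP (Move G) (MS U r) c d n) :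
    HP (Move G) (MS U (r + 1)) a (w ::ₘ d) (m + n) := by
  refine h1.append (h2.map (w ::ₘ ·) (fun x y h => (cons_inj_right w).1 h) (Move.cons w)) ?_
    ⟨y, w, c, hy, rfl, rfl⟩ ?_
  · rintro x hx ⟨D, -, rfl⟩
    simpa using hx.2 w (by simp)
  · intro x
    constructor
    · intro hx
      by_cases h : w ∈ x
      · obtain ⟨D, rfl⟩ := exists_cons_of_mem h
        exact Or.inr ⟨D, ⟨by simpa using hx.1, fun v hv => hx.2 v (mem_cons_of_mem hv)⟩, rfl⟩
      · exact Or.inl ⟨hx.1, fun v hv => Finset.mem_erase.2 ⟨fun e => h (e ▸ hv), hx.2 v hv⟩⟩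
    · rintro (hx | ⟨D, hD, rfl⟩)
      · exact ⟨hx.1, fun v hv => Finset.mem_of_mem_erase (hx.2 v hv)⟩
      · refine ⟨by simp [hD.1], fun v hv => ?_⟩
        rcases mem_cons.1 hv with rfl | hv
        · exact hw
        · exact hD.2 v hv

lemma clique {V : Type} [DecidableEq V] (G : SimpleGraph V) : ∀ (n : ℕ) (U : Finset V),
    U.card = n + 1 → (∀ u ∈ U, ∀ v ∈ U, u ≠ v → G.Adj u v) → ∀ a ∈ U, ∀ b ∈ U,
      (a ≠ b ∨ n = 0) → ∀ r,
        HP (Move G) (MS U r) (replicate r a) (replicate r b) (Nat.multichoose (n + 1) r) := by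
  intro n
  induction n with
  | zero =>
    intro U hU _ a ha b hb _ r
    obtain ⟨c, rfl⟩ := Finset.card_eq_one.1 hU
    rw [Finset.mem_singleton] at ha hb
    subst ha; subst hb
    rw [zero_add, Nat.multichoose_one]
    exact HP.single _ _ _ fun x => by simp [MS, eq_replicate]
  | succ n ih =>
    intro U hU hc a ha b hb hab r
    have hab : a ≠ b := by simpa using hab
    have hU0 : (U.erase b).card = n + 1 := by rw [Finset.card_erase_of_mem hb, hU]; rfl
    have ha0 : a ∈ U.erase b := Finset.mem_erase.2 ⟨hab, ha⟩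
    obtain ⟨y, hy, hay⟩ : ∃ y ∈ U.erase b, a ≠ y ∨ n = 0 := by
      by_cases h : n = 0
      · exact ⟨a, ha0, Or.inr h⟩
      · obtain ⟨y, hy, h'⟩ := Finset.exists_mem_ne (s := U.erase b) (by omega) a
        exact ⟨y, hy, Or.inl h'.symm⟩
    have P := ih (U.erase b) hU0
      (fun u hu v hv => hc u (Finset.mem_of_mem_erase hu) v (Finset.mem_of_mem_erase hv))
      a ha0 y hy hay
    have hyb := Finset.mem_erase.1 hy
    have key : ∀ r,
        HP (Move G) (MS U r) (replicate r a) (replicate r b) (Nat.multichoose (n + 1 + 1) r) ∧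
        HP (Move G) (MS U r) (replicate r y) (replicate r b) (Nat.multichoose (n + 1 + 1) r) := by
      intro r
      induction r with
      | zero =>
        have : HP (Move G) (MS U 0) 0 0 1 := HP.single _ _ _ fun x => by
          simp only [MS, Set.mem_setOf_eq, card_eq_zero]
          exact ⟨fun h => h.1, by rintro rfl; simp⟩
        simpa using this
      | succ r ih2 =>
        rw [Nat.multichoose_succ_succ, replicate_succ b]
        constructor
        · exact step U b hb r _ _ _ (replicate r y) _ y (hc y hyb.2 b hb hyb.1) (P (r + 1)) ih2.2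
        · exact step U b hb r _ _ _ (replicate r a) _ a (hc a ha b hb hab)
            (HP.symm (a := replicate (r + 1) a) (fun _ _ h => h.symm) (P (r + 1))) ih2.1
    exact (key r).1

def GG (k : ℕ) : SimpleGraph (Fin (k + 5)) where
  Adj u v := u.val ≠ v.val ∧ ((u.val ≤ 2 ∧ v.val ≤ 2) ∨
    ((u.val = 0 ∨ 3 ≤ u.val) ∧ (v.val = 0 ∨ 3 ≤ v.val)))
  symm := ⟨fun u v h => by omega⟩
  loopless := ⟨fun u h => h.1 rfl⟩

lemma notHam (k : ℕ) : ¬ Ham (GG k) := by
  rintro ⟨n, f, h3, hi, hs, ha, hl⟩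
  have hn : k + 5 ≤ n := by
    have : (Finset.univ : Finset (Fin (k + 5))) ⊆ (Finset.range n).image f := fun v _ => by
      obtain ⟨i, hi, e⟩ := hs v
      exact Finset.mem_image.2 ⟨i, Finset.mem_range.2 hi, e⟩
    have := (Finset.card_le_card this).trans Finset.card_image_le
    simpa using this
  have ad : ∀ i < n, ∀ j < n, (j = i + 1 ∨ (i = n - 1 ∧ j = 0)) → (GG k).Adj (f i) (f j) := by
    rintro i hi j hj (rfl | ⟨rfl, rfl⟩)
    · exact ha i hj
    · exact hl
  have ne : ∀ i < n, ∀ j < n, i ≠ j → (f i).val ≠ (f j).val :=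
    fun i h1 j h2 h e => h (hi i h1 j h2 (Fin.ext e))
  have nx : ∀ i < n, ∃ j < n, j = i + 1 ∨ (i = n - 1 ∧ j = 0) := fun i hi =>
    if h : i + 1 < n then ⟨i + 1, h, Or.inl rfl⟩ else ⟨0, by omega, by omega⟩
  have pv : ∀ j < n, ∃ i < n, j = i + 1 ∨ (i = n - 1 ∧ j = 0) := fun j hj =>
    if h : j = 0 then ⟨n - 1, by omega, by omega⟩ else ⟨j - 1, by omega, by omega⟩
  obtain ⟨i, hi0, e⟩ := hs ⟨1, by omega⟩
  have e : (f i).val = 1 := by rw [e]
  obtain ⟨j, hj, ij⟩ := nx i hi0
  obtain ⟨j', hj', jj⟩ := nx j hj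
  obtain ⟨p, hp, pi⟩ := pv i hi0
  obtain ⟨p', hp', pp⟩ := pv p hp
  have a1 := ad _ hi0 _ hj ij
  have a2 := ad _ hj _ hj' jj
  have a3 := ad _ hp _ hi0 pi
  have a4 := ad _ hp' _ hp pp
  have n1 := ne _ hp _ hj (by omega)
  have n2 := ne _ hi0 _ hj' (by omega)
  have n3 := ne _ hp _ hj' (by omega)
  have n4 := ne _ hp' _ hi0 (by omega)
  have n5 := ne _ hp' _ hj (by omega)
  simp only [GG] at a1 a2 a3 a4
  omega

lemma toHam {V : Type} [DecidableEq V] (G : SimpleGraph V) (K m : ℕ) (a b : Multiset V)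
    (h : HP (Move G) {A | A.card = K} a b m) (hc : Move G b a) (u v w : Multiset V)
    (hu : u.card = K) (hv : v.card = K) (hw : w.card = K) (d1 : u ≠ v) (d2 : u ≠ w) (d3 : v ≠ w) :
    Ham (multisetGraph G K) := by
  obtain ⟨l, p1, p2, p3, p4, p5, -⟩ := h
  have h3 : 3 ≤ l.length := by
    have : ({u, v, w} : Finset (Multiset V)) ⊆ l.toFinset := by
      intro x hx
      simp only [Finset.mem_insert, Finset.mem_singleton] at hx
      rw [List.mem_toFinset, p2]
      rcases hx with rfl | rfl | rfl <;> assumption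
    have := (Finset.card_le_card this).trans l.toFinset_card_le
    rwa [Finset.card_eq_three.2 ⟨u, v, w, d1, d2, d3, rfl⟩] at this
  refine ⟨l.length, fun i => if h : i < l.length then ⟨l[i], (p2 _).1 (List.getElem_mem h)⟩
    else ⟨u, hu⟩, h3, ?_, ?_, ?_, ?_⟩
  · intro i hi j hj e
    simp only [hi, hj, dif_pos, Subtype.mk.injEq] at e
    exact (p1.getElem_inj_iff).1 e
  · intro A
    obtain ⟨i, hi, e⟩ := List.getElem_of_mem ((p2 A.1).2 A.2)
    exact ⟨i, hi, by simp only [hi, dif_pos]; exact Subtype.ext e⟩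
  · intro i hi
    have hi' : i < l.length := by omega
    simp only [hi, hi', dif_pos]
    exact List.isChain_iff_getElem.1 p3 i hi
  · have h1 : l.length - 1 < l.length := by omega
    have h0 : 0 < l.length := by omega
    simp only [h1, h0, dif_pos]
    rw [List.getLast?_eq_getElem?, List.getElem?_eq_getElem h1] at p5
    rw [List.head?_eq_getElem?, List.getElem?_eq_getElem h0] at p4
    show Move G l[l.length - 1] l[0]
    rw [Option.some.inj p5, Option.some.inj p4]
    exact hc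

lemma isHam (k : ℕ) : Ham (multisetGraph (GG k) (k + 3)) := by
  obtain ⟨x, hx⟩ : ∃ x : Fin (k + 5), x.val = 0 := ⟨⟨0, by omega⟩, rfl⟩
  obtain ⟨y, hy⟩ : ∃ x : Fin (k + 5), x.val = 1 := ⟨⟨1, by omega⟩, rfl⟩
  obtain ⟨z, hz⟩ : ∃ x : Fin (k + 5), x.val = 2 := ⟨⟨2, by omega⟩, rfl⟩
  obtain ⟨a, ha⟩ : ∃ x : Fin (k + 5), x.val = 3 := ⟨⟨3, by omega⟩, rfl⟩
  obtain ⟨b, hb⟩ : ∃ x : Fin (k + 5), x.val = 4 := ⟨⟨4, by omega⟩, rfl⟩
  have xy : x ≠ y := by rw [Ne, Fin.ext_iff]; omega
  have xz : x ≠ z := by rw [Ne, Fin.ext_iff]; omega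
  have yz : y ≠ z := by rw [Ne, Fin.ext_iff]; omega
  have ab : a ≠ b := by rw [Ne, Fin.ext_iff]; omega
  obtain ⟨T, hT, cT⟩ : ∃ T : Finset (Fin (k + 5)), (∀ v, v ∈ T ↔ v.val ≤ 2) ∧ T.card = 3 :=
    ⟨{x, y, z}, fun v => by simp only [Finset.mem_insert, Finset.mem_singleton, Fin.ext_iff]; omega,
      Finset.card_eq_three.2 ⟨x, y, z, xy, xz, yz, rfl⟩⟩
  obtain ⟨W, hW, cW⟩ : ∃ W : Finset (Fin (k + 5)), (∀ v, v ∈ W ↔ 3 ≤ v.val) ∧ W.card = k + 1 + 1 :=
    ⟨Tᶜ, fun v => by rw [Finset.mem_compl, hT]; omega, by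
      rw [Finset.card_compl, cT, Fintype.card_fin]; omega⟩
  obtain ⟨H, hH, cH⟩ : ∃ H : Finset (Fin (k + 5)), (∀ v, v ∈ H ↔ v.val = 0 ∨ 3 ≤ v.val) ∧
      H.card = k + 2 + 1 :=
    ⟨insert x W, fun v => by rw [Finset.mem_insert, hW, Fin.ext_iff, hx], by
      rw [Finset.card_insert_of_notMem (by rw [hW]; omega), cW]⟩
  have qT : ∀ u ∈ T, ∀ v ∈ T, u ≠ v → (GG k).Adj u v := fun u hu v hv h =>
    ⟨fun e => h (Fin.ext e), Or.inl ⟨(hT u).1 hu, (hT v).1 hv⟩⟩
  have qH : ∀ u ∈ H, ∀ v ∈ H, u ≠ v → (GG k).Adj u v := fun u hu v hv h =>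
    ⟨fun e => h (Fin.ext e), Or.inr ⟨(hH u).1 hu, (hH v).1 hv⟩⟩
  have qW : ∀ u ∈ W, ∀ v ∈ W, u ≠ v → (GG k).Adj u v := fun u hu v hv h =>
    ⟨fun e => h (Fin.ext e), Or.inr ⟨Or.inr ((hW u).1 hu), Or.inr ((hW v).1 hv)⟩⟩
  have xT : x ∈ T := (hT x).2 (by omega)
  have yT : y ∈ T := (hT y).2 (by omega)
  have zT : z ∈ T := (hT z).2 (by omega)
  have tri : ∀ r, ∃ m, HP (Move (GG k)) (MS T (r + 1)) (x ::ₘ replicate r x)
      (z ::ₘ replicate r x) m := fun r =>
    ⟨_, step T z zT r _ _ (replicate (r + 1) x) (replicate r y) _ y (qT y yT z zT yz)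
      (clique (GG k) 1 (T.erase z) (by rw [Finset.card_erase_of_mem zT, cT])
        (fun u hu v hv => qT u (Finset.mem_of_mem_erase hu) v (Finset.mem_of_mem_erase hv))
        x (Finset.mem_erase.2 ⟨xz, xT⟩) y (Finset.mem_erase.2 ⟨yz, yT⟩) (Or.inl xy) (r + 1))
      (clique (GG k) 2 T cT qT y yT x xT (Or.inl xy.symm) r)⟩
  have dec : ∀ B ∈ MS H (k + 2), ∃ c, (B.filter (· ∈ W)).card + c = k + 2 ∧
      B = B.filter (· ∈ W) + replicate c x := by
    intro B hB
    have e := filter_add_not (· ∈ W) B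
    have e2 : B.filter (fun v => ¬ v ∈ W) = replicate (B.filter (fun v => ¬ v ∈ W)).card x := by
      refine eq_replicate_card.2 fun v hv => ?_
      rw [mem_filter, hW] at hv
      have := (hH v).1 (hB.2 v hv.1)
      exact Fin.ext (by omega)
    refine ⟨_, ?_, by rw [← e2, e]⟩
    rw [← card_add, e, hB.1]
  obtain ⟨l0, p1, p2, p3, p4, p5, p6⟩ := clique (GG k) (k + 2) H cH qH a ((hH a).2 (by omega))
    b ((hH b).2 (by omega)) (Or.inl ab) (k + 2)
  obtain ⟨l, rfl⟩ : ∃ l, l0 = replicate (k + 2) a :: l := List.head?_eq_some_iff.1 p4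
  have od : ¬ Even l.length := by
    have := Nat.two_dvd_centralBinom_succ (k + 1)
    rw [Nat.multichoose_eq, show k + 2 + 1 + (k + 2) - 1 = 2 * (k + 1 + 1) by omega,
      List.length_cons] at p6
    rw [Nat.centralBinom_eq_two_mul_choose, ← p6] at this
    rw [Nat.even_iff]; omega
  obtain ⟨m, g⟩ := lift (R := Move (GG k)) (fun _ _ h => h.symm) (MS H (k + 2))
    (fun B => {A | A.card = k + 3 ∧ A.filter (· ∈ W) = B.filter (· ∈ W)})
    (fun t B => cond t x z ::ₘ B)
    (by
      intro B hB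
      obtain ⟨c, c1, c2⟩ := dec B hB
      obtain ⟨m, g⟩ := tri c
      have g' := g.map (B.filter (· ∈ W) + ·) (add_right_injective _) (Move.add _)
      refine ⟨m, ?_⟩
      have e1 : (B.filter (· ∈ W) + ·) '' MS T (c + 1) =
          {A | A.card = k + 3 ∧ A.filter (· ∈ W) = B.filter (· ∈ W)} := by
        ext A
        constructor
        · rintro ⟨D, hD, rfl⟩
          refine ⟨by rw [card_add, hD.1]; omega, ?_⟩
          rw [filter_add, filter_filter, (filter_eq_nil (s := D)).2, add_zero]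
          · simp only [and_self]
          · intro v hv
            have := (hT v).1 (hD.2 v hv)
            rw [hW]; omega
        · rintro ⟨g1, g2⟩
          have e := filter_add_not (· ∈ W) A
          refine ⟨A.filter (fun v => ¬ v ∈ W), ⟨?_, fun v hv => ?_⟩, by rw [← g2]; exact e⟩
          · have := congrArg card e
            rw [card_add, g2] at this
            omega
          · rw [mem_filter, hW] at hv
            rw [hT]; omega
      rw [e1, add_cons, add_cons, ← c2] at g'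
      exact g')
    (by
      intro B hB B' hB' A h1 h2
      obtain ⟨c, c1, c2⟩ := dec B hB
      obtain ⟨c', c3, c4⟩ := dec B' hB'
      have e := h1.2.symm.trans h2.2
      rw [e] at c1 c2
      rw [c2, show c = c' by omega, ← c4])
    (fun B B' t h => h.cons _ _ _) l _ _ p1 (fun A hA => (p2 A).1 hA) p3 p5 true
  rw [if_neg od] at g
  have g2 := clique (GG k) (k + 1) W cW qW b ((hW b).2 (by omega)) a ((hW a).2 (by omega))
    (Or.inl ab.symm) (k + 3)
  have xH : x ∈ H := (hH x).2 (by omega)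
  have g3 := g.append (U := {A | A.card = k + 3}) g2
    (by
      rintro A ⟨C, hC, h1, h2⟩ hA
      have := ((p2 C).1 hC).1
      rw [filter_eq_self.2 hA.2] at h2
      have h3 := card_le_card (filter_le (· ∈ W) C)
      rw [← h2] at h3
      omega)
    ⟨x, b, replicate (k + 2) b, qH x xH b ((hH b).2 (by omega))
      (by rw [Ne, Fin.ext_iff]; omega), rfl, rfl⟩
    (by
      intro A
      constructor
      · intro hA
        by_cases h : ∀ v ∈ A, v ∈ W
        · exact Or.inr ⟨hA, h⟩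
        · have hlt : (A.filter (· ∈ W)).card < A.card :=
            card_lt_card (lt_of_le_of_ne (filter_le _ _) fun e => h (filter_eq_self.1 e))
          have hA' : A.card = k + 3 := hA
          refine Or.inl ⟨A.filter (· ∈ W) + replicate (k + 2 - (A.filter (· ∈ W)).card) x,
            (p2 _).2 ⟨by rw [card_add, card_replicate]; omega, fun v hv => ?_⟩, hA, ?_⟩
          · rcases mem_add.1 hv with hv | hv
            · exact (hH v).2 (Or.inr ((hW v).1 (mem_filter.1 hv).2))
            · rw [eq_of_mem_replicate hv]; exact xH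
          · rw [filter_add, filter_filter, (filter_eq_nil (s := replicate _ x)).2, add_zero]
            · simp only [and_self]
            · intro v hv
              rw [eq_of_mem_replicate hv, hW]; omega
      · rintro (⟨C, -, h, -⟩ | h)
        · exact h
        · exact h.1)
  have inj : ∀ u v : Fin (k + 5), u ≠ v → replicate (k + 3) u ≠ replicate (k + 3) v :=
    fun u v h e => h (replicate_right_injective (by omega) e)
  exact toHam _ _ _ _ _ g3 ⟨a, x, replicate (k + 2) a, qH a ((hH a).2 (by omega)) x xH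
    (by rw [Ne, Fin.ext_iff]; omega), rfl, rfl⟩ _ _ _ (card_replicate _ x) (card_replicate _ y)
    (card_replicate _ z) (inj _ _ xy) (inj _ _ xz) (inj _ _ yz)

theorem result : ∀ k : ℕ, 3 ≤ k → ∃ (n : ℕ) (G : SimpleGraph (Fin n)),
    k + 1 ≤ n ∧ ¬ Ham G ∧ Ham (multisetGraph G k) := by
  intro k hk
  obtain ⟨j, rfl⟩ : ∃ j, k = j + 3 := ⟨k - 3, by omega⟩
  exact ⟨j + 5, GG j, by omega, notHam j, isHam j⟩

end Pool.Agent.Results.MP_593b6a_co.AllK
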